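import Pool.Agent.Work.MP_ad0563_ag.FinalTop
import Pool.Agent.Work.MP_ad0563_ag_helper72.G4

/-!
# MP_ad0563_ag : elliptic chain connectedness is not a birational invariant

There are two birationally equivalent normal projective varieties `X`, `X'` of dimension 4 over
`ℂ`, both with terminal (hence klt) singularities, such that `X` is elliptically chain connected
and `X'` is not.

All definitions are in `Pool/Agent/Work/MP_ad0563_ag/Statement.lean`.

Let `W` be the elliptic fibration `x³ + y³ + v₁⁹ + v₂⁹ = 0` over `ℙ¹`.  `X'` is the smooth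
fourfold `W × ℙ²`; `X` is a terminal model of it, a `ℙ(𝒪 ⊕ 𝒪(1) ⊕ 𝒪(1))`-like bundle over the
surface `x³ + y³ + v₁⁹ + v₂⁹ = 0` in `ℙ(1,1,3,3)` (the contraction of `W`), with terminal
quotient singularities of type `1/3(1,1,1,1)` and `1/3(1,1,2)`.
-/

namespace Pool.Agent.Results.MP_ad0563_ag.NotBirationalInvariant

open Pool.Agent.MPad0563

theorem result :
    ∃ (ι κ : Type) (_ : Fintype ι) (_ : Fintype κ) (X : ProjVar ι) (X' : ProjVar κ),
      X.Birational X' ∧ X.dim = 4 ∧ X'.dim = 4 ∧ X.IsTerminal ∧ X'.IsTerminal ∧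
        X.IsKlt ∧ X'.IsKlt ∧ IsECC X ∧ ¬ IsECC X' :=
  finalTop (stmt_G4 stmt_N2 (stmt_G1 stmt_Sym) stmt_Sym)

end Pool.Agent.Results.MP_ad0563_ag.NotBirationalInvariant
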